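import Pool.Agent.helper92.FV.Defs2

/-! # FV project, module fv:EX: existence of graded free resolutions -/

namespace FV

universe u

section Ring

variable {k : Type u} [Field k] {R : Type u} [CommRing R] [Algebra k R]
  (𝒜 : ℕ → Submodule k R) [GradedAlgebra 𝒜]

omit [GradedAlgebra 𝒜] in
lemma EX_grZ_neg {j : ℤ} (hj : j < 0) {a : R} (ha : a ∈ grZ 𝒜 j) : a = 0 := by
  rw [grZ, if_neg (by omega)] at ha
  exact (Submodule.mem_bot k).mp ha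

omit [GradedAlgebra 𝒜] in
lemma EX_grZ_nonneg {j : ℤ} (hj : 0 ≤ j) {a : R} (ha : a ∈ grZ 𝒜 j) : a ∈ 𝒜 j.toNat := by
  rwa [grZ, if_pos hj] at ha

lemma EX_grZ_mul {i : ℕ} {j : ℤ} {a b : R} (ha : a ∈ 𝒜 i) (hb : b ∈ grZ 𝒜 j) :
    a * b ∈ grZ 𝒜 (j + i) := by
  rcases lt_or_ge j 0 with hj | hj
  · rw [EX_grZ_neg 𝒜 hj hb, mul_zero]
    exact Submodule.zero_mem _
  · have h1 := SetLike.GradedMul.mul_mem ha (EX_grZ_nonneg 𝒜 hj hb)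
    rw [grZ, if_pos (by omega)]
    rwa [show (j + i).toNat = i + j.toNat by omega]

lemma EX_FreeGr_smul {ι : Type u} (deg : ι → ℤ) (i : ℕ) (j : ℤ) (a : R) (x : ι →₀ R)
    (ha : a ∈ 𝒜 i) (hx : x ∈ FreeGr 𝒜 deg j) : a • x ∈ FreeGr 𝒜 deg (j + i) := by
  intro b
  rw [Finsupp.smul_apply, smul_eq_mul, show j + i - deg b = (j - deg b) + i by ring]
  exact EX_grZ_mul 𝒜 ha (hx b)

omit [GradedAlgebra 𝒜] in
lemma EX_lc_mem {X : Type u} [AddCommGroup X] [Module R X] (ℳ : ℤ → AddSubgroup X)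
    (hℳ : ∀ (i : ℕ) (j : ℤ) (a : R) (x : X), a ∈ 𝒜 i → x ∈ ℳ j → a • x ∈ ℳ (j + i))
    {I : Type u} (deg : I → ℤ) (v : I → X) (hv : ∀ b, v b ∈ ℳ (deg b)) (m : ℤ) (x : I →₀ R)
    (hx : x ∈ FreeGr 𝒜 deg m) : Finsupp.linearCombination R v x ∈ ℳ m := by
  rw [Finsupp.linearCombination_apply, Finsupp.sum]
  refine AddSubgroup.sum_mem _ fun b _ => ?_
  have h1 : x b ∈ grZ 𝒜 (m - deg b) := hx b
  rcases lt_or_ge (m - deg b) 0 with h | h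
  · rw [EX_grZ_neg 𝒜 h h1, zero_smul]
    exact AddSubgroup.zero_mem _
  · have h2 := hℳ _ _ _ _ (EX_grZ_nonneg 𝒜 h h1) (hv b)
    rwa [show deg b + ((m - deg b).toNat : ℤ) = m by omega] at h2

lemma EX_single_mem {I : Type u} (deg : I → ℤ) (b : I) :
    Finsupp.single b (1 : R) ∈ FreeGr 𝒜 deg (deg b) := by
  intro c
  by_cases h : b = c
  · subst h
    rw [Finsupp.single_eq_same, sub_self, grZ, if_pos le_rfl]
    exact SetLike.GradedOne.one_mem (A := 𝒜)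
  · rw [Finsupp.single_eq_of_ne (Ne.symm h)]
    exact Submodule.zero_mem _

/-- A stage of the construction. -/
structure EXStage (R : Type u) [CommRing R] where
  ι : Type u
  deg : ι → ℤ
  nonneg : ∀ b, 0 ≤ deg b
  K : Submodule R (ι →₀ R)

/-- The generators of the next free module. -/
abbrev EXStage.Idx (S : EXStage R) : Type u :=
  {p : ℤ × (S.ι →₀ R) // p.2 ∈ FreeGr 𝒜 S.deg p.1 ∧ 0 ≤ p.1 ∧ p.2 ∈ S.K}

/-- The map of the next free module. -/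
noncomputable def EXStage.map (S : EXStage R) : (S.Idx 𝒜 →₀ R) →ₗ[R] (S.ι →₀ R) :=
  Finsupp.linearCombination R (fun b : S.Idx 𝒜 => b.1.2)

/-- The degrees. -/
def EXStage.dg (S : EXStage R) (b : S.Idx 𝒜) : ℤ := b.1.1

/-- The next stage. -/
noncomputable abbrev EXStage.next (S : EXStage R) : EXStage R where
  ι := S.Idx 𝒜
  deg := S.dg 𝒜
  nonneg := fun b => b.2.2.1
  K := LinearMap.ker (S.map 𝒜)

lemma EXStage.map_mem (S : EXStage R) (m : ℤ) (x : S.Idx 𝒜 →₀ R)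
    (hx : x ∈ FreeGr 𝒜 (S.dg 𝒜) m) : S.map 𝒜 x ∈ FreeGr 𝒜 S.deg m :=
  EX_lc_mem 𝒜 (FreeGr 𝒜 S.deg) (EX_FreeGr_smul 𝒜 S.deg) (S.dg 𝒜) _
    (fun b => b.2.1) m x hx

omit [GradedAlgebra 𝒜] in
lemma EXStage.map_K (S : EXStage R) (x : S.Idx 𝒜 →₀ R) : S.map 𝒜 x ∈ S.K := by
  rw [EXStage.map, Finsupp.linearCombination_apply, Finsupp.sum]
  exact Submodule.sum_mem _ fun b _ => Submodule.smul_mem _ _ b.2.2.2

omit [GradedAlgebra 𝒜] in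
lemma EXStage.map_map (S : EXStage R) (x : (S.next 𝒜).Idx 𝒜 →₀ R) :
    S.map 𝒜 ((S.next 𝒜).map 𝒜 x) = 0 := by
  have h := (S.next 𝒜).map_K 𝒜 x
  exact LinearMap.mem_ker.1 h

lemma EXStage.exact (S : EXStage R) (m : ℤ) (x : S.ι →₀ R) (hx : x ∈ FreeGr 𝒜 S.deg m)
    (hK : x ∈ S.K) : ∃ y ∈ FreeGr 𝒜 (S.dg 𝒜) m, S.map 𝒜 y = x := by
  rcases lt_or_ge m 0 with hm | hm
  · refine ⟨0, AddSubgroup.zero_mem _, ?_⟩
    rw [map_zero]
    ext b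
    have := EX_grZ_neg 𝒜 (j := m - S.deg b) (by have := S.nonneg b; omega) (hx b)
    rw [this]; rfl
  · let b : S.Idx 𝒜 := ⟨(m, x), hx, hm, hK⟩
    refine ⟨Finsupp.single b 1, EX_single_mem 𝒜 (S.dg 𝒜) b, ?_⟩
    rw [EXStage.map, Finsupp.linearCombination_single, one_smul]

lemma EXStage.exact_next (S : EXStage R) (m : ℤ) (x : S.Idx 𝒜 →₀ R)
    (hx : x ∈ FreeGr 𝒜 (S.dg 𝒜) m) (hK : S.map 𝒜 x = 0) :
    ∃ y ∈ FreeGr 𝒜 ((S.next 𝒜).dg 𝒜) m, (S.next 𝒜).map 𝒜 y = x :=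
  (S.next 𝒜).exact 𝒜 m x hx (LinearMap.mem_ker.2 hK)

/-- All stages. -/
noncomputable def EXStage.seq (S : EXStage R) : ℕ → EXStage R
  | 0 => S
  | n + 1 => (EXStage.seq S n).next 𝒜

variable {𝒜} in
theorem exists_res (N : Type u) [AddCommGroup N] [Module R N] (ℳ : ℤ → AddSubgroup N)
    (hℳ : ∀ (i : ℕ) (j : ℤ) (a : R) (x : N), a ∈ 𝒜 i → x ∈ ℳ j → a • x ∈ ℳ (j + i))
    (hneg : ∀ j, j < 0 → ℳ j = ⊥) :
    Nonempty (GrFreeRes 𝒜 N ℳ) := by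
  let I0 : Type u := {p : ℤ × N // p.2 ∈ ℳ p.1 ∧ 0 ≤ p.1}
  let aug : (I0 →₀ R) →ₗ[R] N := Finsupp.linearCombination R (fun b : I0 => b.1.2)
  let S0 : EXStage R := ⟨I0, fun b => b.1.1, fun b => b.2.2, LinearMap.ker aug⟩
  have haug : ∀ x : S0.Idx 𝒜 →₀ R, aug (S0.map 𝒜 x) = 0 := fun x =>
    LinearMap.mem_ker.1 (S0.map_K 𝒜 x)
  have hex : ∀ m, ∀ x ∈ FreeGr 𝒜 S0.deg m, aug x = 0 →
      ∃ y ∈ FreeGr 𝒜 (S0.dg 𝒜) m, S0.map 𝒜 y = x := fun m x hx h0 =>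
    S0.exact 𝒜 m x hx (LinearMap.mem_ker.2 h0)
  refine ⟨{
    ι := fun n => (S0.seq 𝒜 n).ι
    deg := fun n => (S0.seq 𝒜 n).deg
    deg_nonneg := fun n b => (S0.seq 𝒜 n).nonneg b
    d := fun n => (S0.seq 𝒜 n).map 𝒜
    aug := aug
    d_mem := fun n m x hx => (S0.seq 𝒜 n).map_mem 𝒜 m x hx
    aug_mem := fun m x hx => EX_lc_mem 𝒜 ℳ hℳ S0.deg _ (fun b => b.2.1) m x hx
    aug_d := haug
    d_d := fun n x => (S0.seq 𝒜 n).map_map 𝒜 x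
    surj := ?_
    exact_zero := hex
    exact_succ := fun n m x hx h0 => (S0.seq 𝒜 n).exact_next 𝒜 m x hx h0 }⟩
  intro m y hy
  rcases lt_or_ge m 0 with hm | hm
  · rw [hneg m hm] at hy
    refine ⟨0, AddSubgroup.zero_mem _, ?_⟩
    rw [map_zero]
    exact ((AddSubgroup.mem_bot).1 hy).symm
  · let b : I0 := ⟨(m, y), hy, hm⟩
    refine ⟨Finsupp.single b 1, EX_single_mem 𝒜 S0.deg b, ?_⟩
    show Finsupp.linearCombination R (fun b : I0 => b.1.2) (Finsupp.single b 1) = y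
    rw [Finsupp.linearCombination_single, one_smul]

end Ring

end FV
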