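import Pool.Agent.helper96.FV.S1
import Pool.Agent.helper63.FV.KZ

/-! # FV project, module fv:S1: Step 1, final form -/

namespace FV

universe u

variable {k : Type u} [Field k]

section Ring

variable {R : Type u} [CommRing R] [Algebra k R] {𝒜 : ℕ → Submodule k R} [GradedAlgebra 𝒜]

theorem step1 (p : ℕ) [ExpChar R p] (e : ℕ) (h : StdGraded 𝒜) (xs : List R)
    (hxs : ∀ x ∈ xs, x ∈ 𝒜 1) (hspan : Submodule.span k {x | x ∈ xs} = 𝒜 1)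
    {M : DGA k} (π : DGA.Hom M (ofRing 𝒜)) (G : Twist M) (J : ℤ) (hG : G.IsRes J)
    (r : ℝ) (hr : 0 ≤ r) (ρ : ℝ) (hρ : 1 ≤ ρ)
    (hS : ∀ n m : ℤ, m ≤ J → (n : ℝ) + r < m →
      (G.tens (DGMod.ver π p e 0 (DGMod.self (ofRing 𝒜)))).Van n m)
    (hK : ∀ l m : ℤ, 1 ≤ l → ¬ (kosR xs hxs).bdg.Van l m →
      (m : ℝ) + (p ^ e : ℕ) - 1 ≤ (p ^ e : ℕ) * (ρ * (l + 1))) :
    ∀ n b, b ≤ J → G.Has n b → (b : ℝ) ≤ ρ * n + r :=
  step1_of p e h xs hxs hspan π G J hG r hr ρ hρ hS hK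
    (fun m hm => kos_zero h xs hxs hspan m hm) (kos_aug p e h xs hxs hspan π)
    (fun x hx xs hxs hxs' a => kos_ses_pos p e x hx xs hxs hxs' π a)
    (fun x hx xs hxs hxs' => kos_ses_zero p e x hx xs hxs hxs' π)

end Ring

end FV
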