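import Pool.Agent.helper92.FV.LES
import Pool.Agent.helper37.FV.F1

/-! # FV project, module fv:S1: Step 1 -/

namespace FV

universe u

variable {k : Type u} [Field k]

lemma S1_bot_of_neg {M : DGA k} (G : Twist M) (N : DGMod M) (n b : ℤ)
    (h : ∀ α, N.gr (n - G.n α) (b - G.j α) = ⊥) : (G.tens N).Van n b := by
  intro x hx _
  refine ⟨0, AddSubgroup.zero_mem _, ?_⟩
  rw [map_zero]
  have h0 : x = (fun _ => 0 : G.I → N.N) := by
    funext α
    have h1 : x α ∈ N.gr (n - G.n α) (b - G.j α) := hx α
    rw [h α] at h1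
    exact (AddSubgroup.mem_bot).1 h1
  exact h0.symm

lemma S1_van_of_bot {C : BDG.{u}} {n b : ℤ} (h : C.gr n b = ⊥) : C.Van n b := by
  intro x hx _
  rw [h] at hx
  refine ⟨0, AddSubgroup.zero_mem _, ?_⟩
  rw [map_zero]
  exact ((AddSubgroup.mem_bot).1 hx).symm

section Ring

variable {R : Type u} [CommRing R] [Algebra k R] {𝒜 : ℕ → Submodule k R} [GradedAlgebra 𝒜]

/-- Everything lives in nonnegative degrees. -/
lemma S1_kos_neg (xs : List R) (hxs : ∀ x ∈ xs, x ∈ 𝒜 1) (l m : ℤ) (h : l < 0 ∨ m < 0) :
    (kosR xs hxs).gr l m = ⊥ := by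
  induction xs generalizing l m with
  | nil =>
    show ((if l = 0 ∧ 0 ≤ m then 𝒜 m.toNat else ⊥ : Submodule k R)).toAddSubgroup = ⊥
    rw [if_neg (by omega)]
    rfl
  | cons x xs ih =>
    have hxs' : ∀ y ∈ xs, y ∈ 𝒜 1 := fun y hy => hxs y (by simp [hy])
    refine (AddSubgroup.eq_bot_iff_forall _).2 fun z hz => ?_
    have h1 : z.1 ∈ (kosR xs hxs').gr l m := hz.1
    have h2 : z.2 ∈ (kosR xs hxs').gr (l - 1) (m - 1) := hz.2
    rw [ih hxs' l m h] at h1
    rw [ih hxs' (l - 1) (m - 1) (by omega)] at h2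
    exact Prod.ext ((AddSubgroup.mem_bot).1 h1) ((AddSubgroup.mem_bot).1 h2)

/-- From the vanishing of the Koszul homology to `V_a`. -/
lemma S1_ver_van (p : ℕ) [ExpChar R p] (e : ℕ) {M : DGA k} (π : DGA.Hom M (ofRing 𝒜)) (a : ℤ)
    (X : DGMod (ofRing 𝒜)) (l m : ℤ) (h : X.bdg.Van l ((p ^ e : ℕ) * m + a)) :
    (DGMod.ver π p e a X).bdg.Van l m := h

theorem step1_of (p : ℕ) [ExpChar R p] (e : ℕ) (_h : StdGraded 𝒜) (xs : List R)
    (hxs : ∀ x ∈ xs, x ∈ 𝒜 1) (_hspan : Submodule.span k {x | x ∈ xs} = 𝒜 1)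
    {M : DGA k} (π : DGA.Hom M (ofRing 𝒜)) (G : Twist M) (J : ℤ) (_hG : G.IsRes J)
    (r : ℝ) (_hr : 0 ≤ r) (ρ : ℝ) (hρ : 1 ≤ ρ)
    (hS : ∀ n m : ℤ, m ≤ J → (n : ℝ) + r < m →
      (G.tens (DGMod.ver π p e 0 (DGMod.self (ofRing 𝒜)))).Van n m)
    (hK : ∀ l m : ℤ, 1 ≤ l → ¬ (kosR xs hxs).bdg.Van l m →
      (m : ℝ) + (p ^ e : ℕ) - 1 ≤ (p ^ e : ℕ) * (ρ * (l + 1)))
    -- results of other modules
    (kos_zero : ∀ m : ℤ, m ≠ 0 → (kosR xs hxs).bdg.Van 0 m)
    (kos_aug : ∃ (N' Kk : DGMod M), Nonempty (SES N' (DGMod.ver π p e 0 (kosR xs hxs)) Kk 0 0 0 0) ∧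
      (∀ x, Kk.d x = 0) ∧
      (∀ i j, (i, j) ≠ ((0 : ℤ), (0 : ℤ)) → ∀ a ∈ M.gr i j, ∀ x : Kk.N, a • x = 0) ∧
      Kk.gr 0 0 ≠ ⊥ ∧
      (∀ l m, l ≤ 0 → N'.bdg.Van l m) ∧
      (∀ l m, (kosR xs hxs).bdg.Van l ((p ^ e : ℕ) * m) → N'.bdg.Van l m))
    (kos_ses_pos : ∀ (x : R) (_ : x ∈ 𝒜 1) (xs : List R)
      (hxs : ∀ y ∈ xs, y ∈ 𝒜 1) (hxs' : ∀ y ∈ x :: xs, y ∈ 𝒜 1) (a : ℤ),
      Nonempty (SES (DGMod.ver π p e a (kosR xs hxs)) (DGMod.ver π p e a (kosR (x :: xs) hxs'))
      (DGMod.ver π p e (a - 1) (kosR xs hxs)) 0 0 (-1) 0))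
    (kos_ses_zero : ∀ (x : R) (_ : x ∈ 𝒜 1) (xs : List R)
      (hxs : ∀ y ∈ xs, y ∈ 𝒜 1) (hxs' : ∀ y ∈ x :: xs, y ∈ 𝒜 1),
      Nonempty (SES (DGMod.ver π p e 0 (kosR xs hxs)) (DGMod.ver π p e 0 (kosR (x :: xs) hxs'))
      (DGMod.ver π p e ((p ^ e : ℕ) - 1) (kosR xs hxs)) 0 0 (-1) (-1))) :
    ∀ n b, b ≤ J → G.Has n b → (b : ℝ) ≤ ρ * n + r := by
  have hq1 : 1 ≤ p ^ e := Nat.one_le_iff_ne_zero.2 (expChar_pow_pos R p e).ne'
  have hqR : (1 : ℝ) ≤ ((p ^ e : ℕ) : ℝ) := by exact_mod_cast hq1
  have hqZ : (1 : ℤ) ≤ ((p ^ e : ℕ) : ℤ) := by exact_mod_cast hq1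
  set q : ℤ := ((p ^ e : ℕ) : ℤ) with hq
  have hqqR : ((p ^ e : ℕ) : ℝ) = (q : ℝ) := by rw [hq, Int.cast_natCast]
  rw [hqqR] at hqR
  simp only [hqqR] at hK
  -- the three statements
  let A : ℤ → Prop := fun i => ∀ (zs ys : List R) (hys : ∀ y ∈ ys, y ∈ 𝒜 1), xs = zs ++ ys →
    ∀ a b : ℤ, 1 ≤ a → a < q → b ≤ J → ρ * (i + 1) + r - 1 < b →
      (G.tens (DGMod.ver π p e a (kosR ys hys))).Van i b
  let B : ℤ → Prop := fun i => ∀ (ys zs : List R) (hys : ∀ y ∈ ys, y ∈ 𝒜 1), xs = zs ++ ys →
    ∀ b : ℤ, b ≤ J → ρ * i + r < b → (G.tens (DGMod.ver π p e 0 (kosR ys hys))).Van i b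
  let C : ℤ → Prop := fun i => ∀ b, b ≤ J → G.Has i b → (b : ℝ) ≤ ρ * i + r
  have key : ∀ n : ℕ, ∀ i : ℤ, i < n → A i ∧ B i ∧ C i := by
    intro n
    induction n with
    | zero =>
      intro i hi
      have hi' : i < 0 := by simpa using hi
      refine ⟨fun zs ys hys _ a b _ _ _ _ => S1_bot_of_neg G _ _ _ fun α => ?_,
        fun ys zs hys _ b _ _ => S1_bot_of_neg G _ _ _ fun α => ?_, fun b _ hb => ?_⟩
      · exact S1_kos_neg ys hys _ _ (Or.inl (by have := G.n_nonneg α; omega))
      · exact S1_kos_neg ys hys _ _ (Or.inl (by have := G.n_nonneg α; omega))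
      · obtain ⟨α, h1, _⟩ := hb
        have := G.n_nonneg α
        omega
    | succ n ihn =>
      intro i hi
      rcases lt_or_ge i n with h | h
      · exact ihn i h
      have hin : i = n := by push_cast at hi; omega
      have hi0 : 0 ≤ i := by omega
      have hi0R : (0 : ℝ) ≤ i := by exact_mod_cast hi0
      obtain ⟨A1, B1, _⟩ := ihn (i - 1) (by omega)
      have Cs : ∀ i', i' < i → C i' := fun i' h' => (ihn i' (by omega)).2.2
      -- (B)
      have hB : B i := by
        intro ys
        induction ys with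
        | nil =>
          intro zs hys _ b hb hb2
          refine hS i b hb ?_
          have : (i : ℝ) ≤ ρ * i := by nlinarith
          linarith
        | cons y ys ih =>
          intro zs hys hxy b hb hb2
          have hy : y ∈ 𝒜 1 := hys y (by simp)
          have hys' : ∀ z ∈ ys, z ∈ 𝒜 1 := fun z hz => hys z (by simp [hz])
          obtain ⟨S⟩ := kos_ses_zero y hy ys hys' hys
          obtain ⟨T⟩ := S.tens G
          have hx' : xs = (zs ++ [y]) ++ ys := by simp [hxy]
          refine T.L1 i b ?_ ?_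
          · rw [sub_zero, sub_zero]
            exact ih (zs ++ [y]) hys' hx' b hb hb2
          · have e1 : i + -1 = i - 1 := by ring
            have e2 : b + -1 = b - 1 := by ring
            rw [e1, e2]
            rcases eq_or_lt_of_le hqZ with h1 | h1
            · have h2 := B1 ys (zs ++ [y]) hys' hx' (b - 1) (by omega) (by
                push_cast
                nlinarith)
              have e3 : q - 1 = 0 := by omega
              rw [e3]
              exact h2
            · exact A1 (zs ++ [y]) ys hys' hx' _ (b - 1) (by omega) (by omega)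
                (by omega) (by push_cast; ring_nf; linarith)
      -- (C)
      have hC : C i := by
        intro b hb hHas
        by_contra hcon
        push Not at hcon
        obtain ⟨N', Kk, ⟨S⟩, hd, ht, hne, hv0, hv⟩ := kos_aug
        obtain ⟨T⟩ := S.tens G
        have h2 := hB xs [] hxs (by simp) b hb hcon
        have h3 : (G.tens Kk).Van i b := by
          have := T.L2 i b h2 ?_
          · simpa using this
          · rw [sub_zero, sub_zero]
            refine tens_van G N' _ _ fun α => ?_
            rcases le_or_gt (i - 1 - G.n α) 0 with h4 | h4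
            · exact hv0 _ _ h4
            refine hv _ _ ?_
            by_contra hvan
            have h5 := hK _ _ h4 hvan
            have h6 : 0 ≤ (q * (b - G.j α)) := by
              by_contra hneg
              push Not at hneg
              exact hvan (S1_van_of_bot (S1_kos_neg xs hxs _ _ (Or.inr hneg)))
            have h7 : 0 ≤ b - G.j α := by
              by_contra hneg
              push Not at hneg
              nlinarith
            have h8 := Cs (G.n α) (by omega) (G.j α) (by omega) ⟨α, rfl, rfl⟩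
            push_cast at h5
            have h9 : (q : ℝ) * ((b : ℝ) - G.j α) + q - 1 ≤ q * (ρ * (i - G.n α)) := by
              have e4 : ((i : ℝ) - 1 - G.n α + 1) = i - G.n α := by ring
              rw [e4] at h5
              exact h5
            have h10 : (q : ℝ) * (b - (G.j α + ρ * (i - G.n α))) ≤ 0 := by nlinarith
            have h11 : (b : ℝ) - (G.j α + ρ * (i - G.n α)) ≤ 0 := by
              by_contra hneg
              push Not at hneg
              nlinarith
            nlinarith
        rw [tens_triv G Kk hd ht] at h3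
        obtain ⟨α, hα1, hα2⟩ := hHas
        have h4 := h3 α
        rw [hα1, hα2, sub_self, sub_self] at h4
        exact hne h4
      -- (A)
      have hA : A i := by
        intro zs
        induction zs using List.reverseRecOn with
        | nil =>
          intro ys hys hxy a b ha1 ha2 hb hb2
          have hxy' : xs = ys := by simpa using hxy
          subst hxy'
          refine tens_van G _ _ _ fun α => S1_ver_van p e π a _ _ _ ?_
          rcases lt_trichotomy (i - G.n α) 0 with h4 | h4 | h4
          · exact S1_van_of_bot (S1_kos_neg xs hys _ _ (Or.inl h4))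
          · rw [h4]
            refine kos_zero _ ?_
            intro h5
            have h6 : q ∣ a := ⟨-(b - G.j α), by rw [← hq] at h5; linarith⟩
            exact absurd (Int.le_of_dvd (by omega) h6) (by omega)
          · by_contra hvan
            have h5 : ((q * (b - G.j α) + a : ℤ) : ℝ) + q - 1 ≤
                q * (ρ * (((i - G.n α : ℤ) : ℝ) + 1)) := hK _ _ h4 hvan
            have h6 : 0 ≤ (q * (b - G.j α) + a) := by
              by_contra hneg
              push Not at hneg
              exact hvan (S1_van_of_bot (S1_kos_neg xs hxs _ _ (Or.inr hneg)))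
            have h7 : 0 ≤ b - G.j α := by
              by_contra hneg
              push Not at hneg
              nlinarith
            have h8 := Cs (G.n α) (by omega) (G.j α) (by omega) ⟨α, rfl, rfl⟩
            push_cast at h5
            have ha1R : (1 : ℝ) ≤ a := by exact_mod_cast ha1
            have h10 : (q : ℝ) * (b + 1 - (G.j α + ρ * (i - G.n α + 1))) ≤ 0 := by
              nlinarith
            have h11 : (b : ℝ) + 1 - (G.j α + ρ * (i - G.n α + 1)) ≤ 0 := by
              by_contra hneg
              push Not at hneg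
              nlinarith
            nlinarith
        | append_singleton zs y ih =>
          intro ys hys hxy
          have hxy' : xs = zs ++ (y :: ys) := by simp [hxy]
          have hy : y ∈ 𝒜 1 := hxs y (by rw [hxy']; simp)
          have hys' : ∀ z ∈ y :: ys, z ∈ 𝒜 1 := by
            intro z hz
            rcases List.mem_cons.1 hz with rfl | hz
            · exact hy
            · exact hys z hz
          have main : ∀ m : ℕ, ∀ b : ℤ, ((m : ℤ) + 1) < q → b ≤ J → ρ * (i + 1) + r - 1 < b →
              (G.tens (DGMod.ver π p e ((m : ℤ) + 1) (kosR ys hys))).Van i b := by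
            intro m
            induction m with
            | zero =>
              intro b hm hb hb2
              obtain ⟨S⟩ := kos_ses_pos y hy ys hys hys' (((0 : ℕ) : ℤ) + 1)
              obtain ⟨T⟩ := S.tens G
              have h1 := T.L3 i b ?_ ?_
              · rwa [sub_zero, sub_zero] at h1
              · have e1 : i + 1 + -1 = i := by ring
                have e2 : (((0 : ℕ) : ℤ) + 1 - 1) = 0 := by simp
                rw [e1, add_zero, e2]
                exact hB ys (zs ++ [y]) hys hxy b hb (by nlinarith)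
              · exact ih (y :: ys) hys' hxy' _ b (by simp) hm hb hb2
            | succ m ihm =>
              intro b hm hb hb2
              obtain ⟨S⟩ := kos_ses_pos y hy ys hys hys' (((m + 1 : ℕ) : ℤ) + 1)
              obtain ⟨T⟩ := S.tens G
              have h1 := T.L3 i b ?_ ?_
              · rwa [sub_zero, sub_zero] at h1
              · have e1 : i + 1 + -1 = i := by ring
                have e2 : (((m + 1 : ℕ) : ℤ) + 1 - 1) = (m : ℤ) + 1 := by push_cast; ring
                rw [e1, add_zero, e2]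
                exact ihm b (by push_cast at hm; omega) hb hb2
              · exact ih (y :: ys) hys' hxy' _ b (by push_cast; omega) hm hb hb2
          intro a b ha1 ha2 hb hb2
          have h1 := main (a - 1).toNat b (by omega) hb hb2
          have e1 : (((a - 1).toNat : ℤ) + 1) = a := by omega
          rwa [e1] at h1
      exact ⟨hA, hB, hC⟩
  intro n b hb hHas
  have h0 : 0 ≤ n := by
    obtain ⟨α, h1, _⟩ := hHas
    have := G.n_nonneg α
    omega
  exact (key (n.toNat + 1) n (by push_cast; omega)).2.2 b hb hHas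

end Ring

end FV
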